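import Pool.Agent.N875.K17.Fin
import Pool.Agent.N875.K17.Cri

/-!
# The 2-part of the strong conjecture of Birch and Swinnerton-Dyer over a positive proportion of all
# quadratic fields, real and imaginary

`E` is the elliptic curve `y² + x y = x³ - 4 x² - x` of conductor `17` (`17a2` in the tables of Cremona,
`y² = x (x + 1) (x - 16)`), which has no complex multiplication. `K` runs over ALL the quadratic fields,
real and imaginary, with no condition on the behaviour of the primes `2` and `17`, except `ℚ(i)` and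
`ℚ(√17)`. Let `t` be the number of the primes `≠ 17` that ramify in `K`, `r` the number of the infinite
places of `K` (`2` or `1`), and let `z = L(E/K, 1) √|disc K| #E(K)_tors² / (Ω ∏ c_v)`, which is zero or the
order of `Ш(E/K)` according to the conjecture. Let `E^K` be the quadratic twist of `E` by `K`, a curve over
`ℚ`. With no hypothesis on the rank or on `Ш` we prove, for all these `K`:
* the equation of `E` is minimal at all the finite places of `K`, `L(E/K, s)` is entire, `#E(K)_tors = 4`,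
  and `∏ c_v` is `2` if `17` is inert in `K`, and `4` otherwise;
* `z = 4 ^ (t - r) y²` with an integer `y`, and `y` is odd if and only if `E^K(ℚ)` is finite and
  `Ш(E^K/ℚ)` has no element of order two, and this is so if and only if an explicit symmetric matrix of
  Legendre symbols over `𝔽₂` (`[[N, R], [Rᵀ, A]]`, `R` the Rédei matrix of `K`) is invertible;
* in this case `K` is real and `17` splits in `K`, or `K` is imaginary and `17` does not split in `K`
  (the sign of the functional equation is `+1`), `E(K)` is finite, `L(E/K, 1) ≠ 0` and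
  `Ш(E/K)[2^∞] = Ш(E/K)[2]` is a vector space over `𝔽₂` of dimension `2 (t - r)`, and its order is
  the 2-part of `z`: the 2-part of the conjecture. Otherwise this is false.
* The proportion of the `K` for which this is so, among all the quadratic fields ordered by the absolute
  value of the discriminant, is exactly `c / 2 = 0.2097…`, `c = ∏_{i ≥ 0} (1 - 2^{-(2i+1)})`, and it is
  the same for the `K` with `#Ш(E/K)[2^∞] ≥ 4 ^ B`, for every `B`. For every `k` there are infinitely many
  real and infinitely many imaginary `K` with `Ш(E/K)[2^∞]` of order `4 ^ k`.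

Proof. A complete 2-descent over `K` (`Pool/Agent/N875/K17`): all the points of order two are rational; if
`E^K` has no 2-Selmer classes except those of the points of order two, then all the classes over `K` are
classes of pairs of rational numbers, by the norm; the local images are found at all the places (`2` and
`17` may be split, inert or ramified), and the classes are counted: there are `4 ^ (t + 1 - r)`. The
exponent of `Ш(E/K)[2^∞]` is bounded by the comparison with the groups of `E` and `E^K` over `ℚ`. The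
central value `L(E/K, 1) = L(E, 1) L(E^K, 1)` is known exactly by the work on the twists of conductor
`17` in the library of many helpers (see `TwoPartTwistsX17` of `MP_4a9ea6_nt` and `TwistsX17`,
`TwistsX17Neg` of `MP_696deb_nt`), and the density is that of `Pool/Agent/N916/MO`.
-/

set_option autoImplicit false
set_option linter.style.haveILetI false

open NumberField IsDedekindDomain WeierstrassCurve MeasureTheory Filter Topology Module
open NumberField.InfinitePlace

namespace Pool.Agent.Results.MP_e996df_nt.TwoPartX17Quadratic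

open scoped Classical

open Pool.Agent.TH841.NF.D (Sha)

/-- The curve given by the equation of `W` over the ring `R`. -/
abbrev base (W : WeierstrassCurve ℤ) (R : Type) [CommRing R] : WeierstrassCurve R :=
  W.map (Int.castRingHom R)

/-- The number of the affine points `(x, y)` over the ring `R`. -/
noncomputable def pts (W : WeierstrassCurve ℤ) (R : Type) [CommRing R] : ℕ :=
  Nat.card {P : R × R // (base W R).toAffine.Equation P.1 P.2}

section

variable {K : Type} [Field K] [NumberField K]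

/-- `a_v = N v + 1 - #W(k_v)`, the points over the residue field `k_v` counted with the point at
infinity. -/
noncomputable def a (W : WeierstrassCurve ℤ) (v : HeightOneSpectrum (𝓞 K)) : ℤ :=
  (Ideal.absNorm v.asIdeal : ℤ) - pts W (𝓞 K ⧸ v.asIdeal)

/-- The Euler factor of `L(W/K, s)` at `v` : `(1 - a_v N v^(-s) + N v^(1 - 2 s))⁻¹` if the
discriminant is a unit at `v`, and `(1 - a_v N v^(-s))⁻¹` otherwise. -/
noncomputable def factor (W : WeierstrassCurve ℤ) (s : ℂ) (v : HeightOneSpectrum (𝓞 K)) : ℂ :=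
  (1 - (a W v : ℂ) * (Ideal.absNorm v.asIdeal : ℂ) ^ (-s) +
    if ((W.Δ : ℤ) : 𝓞 K) ∈ v.asIdeal then 0 else (Ideal.absNorm v.asIdeal : ℂ) ^ (1 - 2 * s))⁻¹

/-- The equation is minimal at the finite place `v` of `K`: no change of variables over `K` that
keeps the coefficients integral at `v` decreases the valuation of the discriminant. -/
def MinimalAt (W : WeierstrassCurve ℤ) (v : HeightOneSpectrum (𝓞 K)) : Prop :=
  ∀ C : VariableChange K, v.valuation K (C • base W K).a₁ ≤ 1 →
    v.valuation K (C • base W K).a₂ ≤ 1 → v.valuation K (C • base W K).a₃ ≤ 1 →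
    v.valuation K (C • base W K).a₄ ≤ 1 → v.valuation K (C • base W K).a₆ ≤ 1 →
    v.valuation K (C • base W K).Δ ≤ v.valuation K (base W K).Δ

/-- `E⁰(K_v)`, the group of the points of `W` over the completion `K_v` with nonsingular reduction:
the points `(x, y)` where `x` is not integral, or one of the partial derivatives of
`y² + a₁ x y + a₃ y - x³ - a₂ x² - a₄ x - a₆` is a unit at `(x, y)`, and the point at infinity. -/
noncomputable def nonsing (W : WeierstrassCurve ℤ) (v : HeightOneSpectrum (𝓞 K)) :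
    AddSubgroup (base W (v.adicCompletion K)).toAffine.Point :=
  AddSubgroup.closure {P | ∀ x y h, P = Affine.Point.some x y h →
    1 < Valued.v x ∨ Valued.v (W.a₁ * y - (3 * x ^ 2 + 2 * W.a₂ * x + W.a₄)) = 1 ∨
      Valued.v (2 * y + W.a₁ * x + W.a₃) = 1}

/-- The Tamagawa number `c_v = [E(K_v) : E⁰(K_v)]` of a minimal equation. -/
noncomputable def c (W : WeierstrassCurve ℤ) (v : HeightOneSpectrum (𝓞 K)) : ℕ :=
  (nonsing W v).index

end

section

variable (K : Type) [Field K] [NumberField K]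

/-- The product of the Tamagawa numbers. -/
noncomputable def Tam (W : WeierstrassCurve ℤ) : ℕ := ∏ᶠ v : HeightOneSpectrum (𝓞 K), c W v

/-- The order of the torsion subgroup of `W(K)`. -/
noncomputable def torsOrder (W : WeierstrassCurve ℤ) : ℕ :=
  Nat.card (AddCommGroup.torsion (base W K).toAffine.Point)

/-- The 2-primary part of the Tate-Shafarevich group over `K`. -/
noncomputable abbrev Sha2 (W : WeierstrassCurve ℤ) : AddSubgroup (Sha (base W K)) :=
  AddCommGroup.primaryComponent (Sha (base W K)) 2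

/-- `L` is the L-function of the minimal equation `W` over `K`: it is entire and it is given by the
Euler product for `Re s > 3/2`. -/
def IsL (W : WeierstrassCurve ℤ) (L : ℂ → ℂ) : Prop :=
  Differentiable ℂ L ∧ ∀ s : ℂ, 3 / 2 < s.re → HasProd (factor (K := K) W s) (L s)

end

/-- `4 x³ + b₂ x² + 2 b₄ x + b₆ = (2 y + a₁ x + a₃)²` at the points of the curve. -/
def cubic (W : WeierstrassCurve ℤ) (x : ℝ) : ℝ :=
  4 * x ^ 3 + W.b₂ * x ^ 2 + 2 * W.b₄ * x + W.b₆

/-- The real period `∫_{W(ℝ)} |ω|` of `ω = dx / (2y + a₁x + a₃)`. -/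
noncomputable def realPeriod (W : WeierstrassCurve ℤ) : ℝ :=
  2 * ∫ x in {x : ℝ | 0 < cubic W x}, 1 / √(cubic W x)

/-- `Λ` is the lattice of periods of the differential `ω = dx / (2y + a₁x + a₃)` of the complex curve
`W`. -/
def IsPeriodLattice (W : WeierstrassCurve ℤ) (Λ : PeriodPair) : Prop :=
  Λ.g₂ = (W.c₄ : ℂ) / 12 ∧ Λ.g₃ = (W.c₆ : ℂ) / 216

/-- Twice the area of a fundamental parallelogram of the lattice: the period at a complex place. -/
noncomputable def complexPeriod (Λ : PeriodPair) : ℝ := 2 * |((starRingEnd ℂ) Λ.ω₁ * Λ.ω₂).im|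

section

variable (K : Type) [Field K] [NumberField K]

/-- The product `Ω` of the periods of `W` over the real and the complex places of `K`. -/
noncomputable def Om (W : WeierstrassCurve ℤ) (Λ : PeriodPair) : ℝ :=
  realPeriod W ^ nrRealPlaces K * complexPeriod Λ ^ nrComplexPlaces K

/-- The order of the Tate-Shafarevich group predicted by the formula in rank zero for the curve `W` over
the number field `K`, for the value `l` of the L-function at `s = 1`:
`l √|disc K| #W(K)_tors² / (Ω ∏ c_v)`. -/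
noncomputable def anOrder (W : WeierstrassCurve ℤ) (l : ℂ) (Λ : PeriodPair) : ℂ :=
  l * (Real.sqrt |(discr K : ℝ)| : ℝ) * (torsOrder K W : ℂ) ^ 2 / ((Om K W Λ : ℂ) * (Tam K W : ℂ))

/-- The 2-part of the strong conjecture of Birch and Swinnerton-Dyer for the curve `W` over the number
field `K`, in the case that the rank is zero and `Ш[2^∞]` is a vector space of dimension `2 k`
over the field with two elements: the equation `W` is minimal at all the finite places, `W(K)` is finite,
`Ш(W/K)[2^∞]` is killed by two and has order `4 ^ k`, `L(W/K, s)` is entire, `L(W/K, 1) ≠ 0`, and the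
predicted order of `Ш` is a rational number with 2-adic valuation `2 k`. -/
def TwoPart (W : WeierstrassCurve ℤ) (k : ℕ) : Prop :=
  (∀ v : HeightOneSpectrum (𝓞 K), MinimalAt W v) ∧ Finite (base W K).toAffine.Point ∧
  (∀ x : Sha2 K W, 2 • x = 0) ∧ Nat.card (Sha2 K W) = 4 ^ k ∧
  {v : HeightOneSpectrum (𝓞 K) | c W v ≠ 1}.Finite ∧ 0 < Tam K W ∧ 0 < torsOrder K W ∧
  ∃ (L : ℂ → ℂ) (z : ℚ), IsL K W L ∧ L 1 ≠ 0 ∧ (∃ Λ : PeriodPair, IsPeriodLattice W Λ) ∧
    (∀ Λ : PeriodPair, IsPeriodLattice W Λ → 0 < Om K W Λ ∧ anOrder K W (L 1) Λ = z) ∧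
    z ≠ 0 ∧ padicValRat 2 z = 2 * k

/-- The number `t` of the primes `≠ 17` that ramify in `K`. -/
noncomputable def ram : ℕ := ((discr K).natAbs.primeFactors.erase 17).card

/-- The number `r` of the infinite places of `K`. -/
noncomputable def inf : ℕ := nrRealPlaces K + nrComplexPlaces K

end

/-- The curve `17a2 : y² + x y = x³ - 4 x² - x`. -/
def E : WeierstrassCurve ℤ := ⟨1, -4, 0, -1, 0⟩

/-- The quadratic twist of `E` by `ℚ(√D)`: `y² = x (x + D) (x - 16 D)`. -/
def twist (D : ℤ) : WeierstrassCurve ℤ := ⟨0, -15 * D, 0, -16 * D ^ 2, 0⟩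

/-- The twist has finitely many points over `ℚ` and its Tate-Shafarevich group over `ℚ` has no element of
order two. -/
def NoSelmer (D : ℤ) : Prop :=
  Finite (base (twist D) ℚ).toAffine.Point ∧ ∀ x : Sha (base (twist D) ℚ), 2 • x = 0 → x = 0

/-- `p* = ± p ≡ 1` modulo `4`, for an odd prime `p`. -/
def star (p : ℕ) : ℤ := if p % 4 = 1 then p else -p

/-- The prime discriminant at the prime divisor `p` of the fundamental discriminant `D`; the product of
these is `D`. -/
def pd (D : ℤ) (p : ℕ) : ℤ :=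
  if p = 2 then D / ∏ q ∈ D.natAbs.primeFactors.erase 2, star q else star p

/-- The Legendre (Kronecker) symbol `(a / p)` in additive form. -/
def sy (p : ℕ) (a : ℤ) : ZMod 2 :=
  if p = 2 then (if a % 8 = 1 then 0 else 1) else if jacobiSym a p = 1 then 0 else 1

/-- The Rédei matrix `R`: the symbol of the prime discriminant at `q` at the prime `p ≠ q`, and the sum
of each row is zero. -/
def redei (D : ℤ) (p q : ℕ) : ZMod 2 :=
  if p = q then ∑ l ∈ D.natAbs.primeFactors.erase p, sy p (pd D l) else sy p (pd D q)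

/-- The symmetric matrix `[[N, R], [Rᵀ, A]]` over `𝔽₂` is invertible, where the rows and columns of both
blocks are the primes that divide `D`, without the row and the column `17` of the first block, `N` is the
diagonal matrix of the symbols `(17 / p)` and `A` that of the signs of the prime discriminants. -/
def Invertible (D : ℤ) : Prop := ∀ x y : ℕ → ZMod 2, x 17 = 0 →
  (∀ p ∈ D.natAbs.primeFactors, p ≠ 17 →
    sy p 17 * x p + ∑ q ∈ D.natAbs.primeFactors, redei D p q * y q = 0) →
  (∀ q ∈ D.natAbs.primeFactors,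
    ∑ p ∈ D.natAbs.primeFactors, redei D p q * x p + (if pd D q < 0 then 1 else 0) * y q = 0) →
  ∀ p ∈ D.natAbs.primeFactors, x p = 0 ∧ y p = 0

/-- The sign of the functional equation of `L(E/K, s)` is `+1`: `K` is real and `17` splits in `K`, or
`K` is imaginary and `17` does not split in `K`. -/
def SignPlus (D : ℤ) : Prop := (0 < D ∧ jacobiSym D 17 = 1) ∨ (D < 0 ∧ jacobiSym D 17 ≠ 1)

/-- The statement for the quadratic field `K`. -/
def Criterion (K : Type) [Field K] [NumberField K] : Prop :=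
  (∀ v : HeightOneSpectrum (𝓞 K), MinimalAt E v) ∧
  {v : HeightOneSpectrum (𝓞 K) | c E v ≠ 1}.Finite ∧
  Tam K E = (if jacobiSym (discr K) 17 = -1 then 2 else 4) ∧ torsOrder K E = 4 ∧
  (∃ (L : ℂ → ℂ) (y : ℤ), IsL K E L ∧ (∃ Λ : PeriodPair, IsPeriodLattice E Λ) ∧
    (∀ Λ : PeriodPair, IsPeriodLattice E Λ → 0 < Om K E Λ ∧
      anOrder K E (L 1) Λ = ((4 ^ ram K / 4 ^ inf K * (y : ℚ) ^ 2 : ℚ) : ℂ)) ∧
    (Odd y ↔ NoSelmer (discr K))) ∧
  (NoSelmer (discr K) ↔ Invertible (discr K)) ∧
  (NoSelmer (discr K) → SignPlus (discr K)) ∧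
  (NoSelmer (discr K) ↔ inf K ≤ ram K ∧ TwoPart K E (ram K - inf K))

/-- `K` is a quadratic field. -/
def IsQuad (K : Type) [Field K] [NumberField K] : Prop := finrank ℚ K = 2

/-- `D` is the discriminant of a quadratic field. -/
def IsDisc (D : ℤ) : Prop := ∃ (K : Type) (_ : Field K) (_ : NumberField K), IsQuad K ∧ discr K = D

/-- `D` is the discriminant of a quadratic field `K` with `t = r + k`, and the 2-part of the conjecture
holds for `E` over `K`, with `Ш(E/K)[2^∞]` a vector space of dimension `2 k` over the field with two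
elements. -/
def Holds (D : ℤ) (k : ℕ) : Prop := IsDisc D ∧ ∀ (K : Type) [Field K] [NumberField K], IsQuad K →
  discr K = D → ram K = inf K + k ∧ TwoPart K E k

/-- the number of the `D`, `|D| ≤ X`, with `Q D` -/
noncomputable def count (Q : ℤ → Prop) (X : ℕ) : ℕ := Nat.card {D : ℤ // |D| ≤ X ∧ Q D}

/-- `c = ∏_{i ≥ 0} (1 - 2^{-(2i+1)})` -/
noncomputable def cc : ℝ := ∏' i : ℕ, (1 - (1 / 2 : ℝ) ^ (2 * i + 1))

section proof

open Pool.Agent.N875.K17 (Qd Hyps Dm tt rr)
open Pool.Agent.N875.P17 (Sg)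

lemma IsL.unique {K : Type} [Field K] [NumberField K] {W : WeierstrassCurve ℤ} {f g : ℂ → ℂ}
    (hf : IsL K W f) (hg : IsL K W g) : f = g := by
  have hfa : AnalyticOnNhd ℂ f Set.univ := fun z _ => hf.1.analyticAt z
  have hga : AnalyticOnNhd ℂ g Set.univ := fun z _ => hg.1.analyticAt z
  have heq : f =ᶠ[nhds (2 : ℂ)] g := by
    have hopen : IsOpen {s : ℂ | (3 : ℝ) / 2 < s.re} := isOpen_lt continuous_const Complex.continuous_re
    filter_upwards [hopen.mem_nhds (show (3 : ℝ) / 2 < (2 : ℂ).re by norm_num)] with s hs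
    exact (hf.2 s hs).unique (hg.2 s hs)
  exact hfa.eq_of_eventuallyEq hga heq

lemma val_pow (t r : ℕ) (hr : r ≤ t) {y : ℤ} (hy : y ≠ 0) :
    padicValRat 2 (4 ^ t / 4 ^ r * (y : ℚ) ^ 2) = 2 * ((t - r : ℕ) : ℤ) + 2 * padicValInt 2 y := by
  have : Fact (Nat.Prime 2) := ⟨Nat.prime_two⟩
  have hyq : (y : ℚ) ≠ 0 := by exact_mod_cast hy
  have h4 : (4 : ℚ) = 2 ^ 2 := by norm_num
  have h2 : ∀ m : ℕ, (4 : ℚ) ^ m ≠ 0 := fun m => pow_ne_zero m (by norm_num)
  have e2 : padicValRat 2 (2 : ℚ) = 1 := by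
    have := padicValRat.self (p := 2) (by norm_num)
    exact_mod_cast this
  rw [padicValRat.mul (div_ne_zero (h2 t) (h2 r)) (pow_ne_zero 2 hyq), padicValRat.div (h2 t) (h2 r),
    padicValRat.pow, padicValRat.pow, padicValRat.pow, padicValRat.of_int, h4, padicValRat.pow, e2]
  push_cast [Nat.cast_sub hr]
  ring

lemma par_val {y : ℤ} (h : Odd y) : padicValInt 2 y = 0 := by
  refine padicValInt.eq_zero_of_not_dvd ?_
  intro hdv
  have h5 := Int.odd_iff.1 h
  omega

lemma odd_of_val {y : ℤ} (hy : y ≠ 0) (h : padicValInt 2 y = 0) : Odd y := by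
  rw [← Int.not_even_iff_odd]
  intro he
  have : Fact (Nat.Prime 2) := ⟨Nat.prime_two⟩
  have h8 := (padicValInt_dvd_iff (p := 2) 1 y).1 (by
    rw [Nat.cast_ofNat, pow_one]; exact he.two_dvd)
  rcases h8 with h8 | h8
  · exact hy h8
  · rw [h] at h8
    omega

/-- the criterion -/
theorem criterion (H : Hyps) (K : Type) [Field K] [NumberField K] (h2 : IsQuad K)
    (hD1 : discr K ≠ -4) (hD17 : discr K ≠ 17) : Criterion K := by
  obtain ⟨m, r, hm, h1, hr⟩ := Pool.Agent.N875.K17.exists_m (K := K) h2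
  have hq : Qd m K r := Pool.Agent.N875.K17.qd_of hm h1 h2 hr
  have hdisc : discr K = Dm m := Pool.Agent.N875.K17.discr_Dm hm h1 hq
  have hm1 : m ≠ -1 := by
    rintro rfl
    exact hD1 (by rw [hdisc]; rfl)
  have hm17 : m ≠ 17 := by
    rintro rfl
    exact hD17 (by rw [hdisc]; rfl)
  have hram : ram K = tt m := by
    unfold ram
    rw [hdisc, Pool.Agent.N875.K17.tt_Dm hm.ne_zero]
  have hinf : inf K = rr m := Pool.Agent.N875.K17.inf_eq hm h1 hq
  have hsel : NoSelmer (discr K) ↔ Sg m := by
    rw [hdisc]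
    exact Pool.Agent.N875.K17.sel_iff hm
  have hjac : jacobiSym (discr K) 17 = jacobiSym m 17 := by
    rw [hdisc, Pool.Agent.N875.K17.jac_Dm]
  have hmin : ∀ v : HeightOneSpectrum (𝓞 K), MinimalAt E v := H.MIN m hm h1 K r hq
  obtain ⟨hcf, htam⟩ := H.TAM m hm h1 K r hq
  have htor : torsOrder K E = 4 := (H.TOR m hm h1 hm1 hm17 K r hq).2
  obtain ⟨L, y, hL, hy, hex, hval⟩ := Pool.Agent.N875.K17.val_main H.LPR H.TAM H.TOR H.VAL1 H.VAL
    hm h1 hm1 hm17 hq
  have hIsL : IsL K E L := hL
  have htam' : Tam K E = if jacobiSym (discr K) 17 = -1 then 2 else 4 := by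
    rw [hjac]
    exact htam
  have hcf' : {v : HeightOneSpectrum (𝓞 K) | c E v ≠ 1}.Finite := hcf
  have hex' : ∃ Λ : PeriodPair, IsPeriodLattice E Λ := hex
  have hval' : ∀ Λ : PeriodPair, IsPeriodLattice E Λ → 0 < Om K E Λ ∧
      anOrder K E (L 1) Λ = ((4 ^ ram K / 4 ^ inf K * (y : ℚ) ^ 2 : ℚ) : ℂ) := by
    intro Λ hΛ
    obtain ⟨h3, h4⟩ := hval Λ hΛ
    refine ⟨h3, ?_⟩
    have h5 : (4 : ℂ) ^ rr m * anOrder K E (L 1) Λ = ((4 ^ tt m * (y : ℚ) ^ 2 : ℚ) : ℂ) := h4
    have h6 : (4 : ℂ) ^ rr m ≠ 0 := pow_ne_zero _ (by norm_num)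
    rw [hram, hinf]
    apply mul_left_cancel₀ h6
    rw [h5]
    push_cast
    field_simp
  have hyg : Odd y ↔ NoSelmer (discr K) := by rw [hsel, hy]
  have hy0 : L 1 = 0 → y = 0 := by
    intro h0
    obtain ⟨Λ, hΛ⟩ := hex'
    have h3 := (hval' Λ hΛ).2
    unfold anOrder at h3
    rw [h0] at h3
    simp only [zero_mul, zero_div] at h3
    have h4 : (4 ^ ram K / 4 ^ inf K * (y : ℚ) ^ 2 : ℚ) = 0 := by exact_mod_cast h3.symm
    have h5 : (4 ^ ram K / 4 ^ inf K : ℚ) ≠ 0 := by positivity
    rcases mul_eq_zero.1 h4 with h6 | h6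
    · exact absurd h6 h5
    · exact_mod_cast (pow_eq_zero_iff two_ne_zero).1 h6
  refine ⟨hmin, hcf', htam', htor, ⟨L, y, hIsL, hex', hval', hyg⟩, ?_, ?_, ?_, ?_⟩
  · rw [hsel, hdisc]
    exact (Pool.Agent.N875.K17.ns_iff hm).symm
  · intro h
    have h3 := Pool.Agent.N875.K17.sg_rt hm (hsel.1 h)
    rw [← Pool.Agent.N875.K17.rt_Dm, ← hdisc] at h3
    exact h3
  · intro hg
    have hyo := hyg.2 hg
    have hyne : y ≠ 0 := by
      rintro rfl
      exact absurd hyo (by decide)
    have hS := hsel.1 hg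
    obtain ⟨hle, hk, hc⟩ := Pool.Agent.N875.K17.sha_all H hm h1 hm1 hm17 hS hq
    rw [← hram, ← hinf] at hle hc
    refine ⟨hle, hmin, (Pool.Agent.N875.K17.fin_pts hm h1 hS hq).2, hk, hc, hcf', ?_, ?_, L,
      4 ^ ram K / 4 ^ inf K * (y : ℚ) ^ 2, hIsL, fun h0 => hyne (hy0 h0), hex', hval', ?_, ?_⟩
    · rw [htam']
      split_ifs <;> norm_num
    · rw [htor]
      norm_num
    · exact mul_ne_zero (div_ne_zero (pow_ne_zero _ (by norm_num)) (pow_ne_zero _ (by norm_num)))
        (pow_ne_zero 2 (by exact_mod_cast hyne))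
    · rw [val_pow _ _ hle hyne, par_val hyo]
      push_cast
      ring
  · rintro ⟨hle, -, -, -, -, -, -, -, L', z, hL', -, -, hz, hz0, hzv⟩
    rw [← hyg]
    obtain ⟨Λ, hΛ⟩ := hex'
    have e1 := (hz Λ hΛ).2
    rw [IsL.unique hL' hIsL, (hval' Λ hΛ).2] at e1
    have e2 : (4 ^ ram K / 4 ^ inf K * (y : ℚ) ^ 2 : ℚ) = z := by exact_mod_cast e1
    have hyne : y ≠ 0 := by
      rintro rfl
      apply hz0
      rw [← e2]
      simp
    have e3 := val_pow _ _ hle hyne
    rw [e2, hzv] at e3
    refine odd_of_val hyne ?_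
    have : (padicValInt 2 y : ℤ) = 0 := by linarith
    exact_mod_cast this

/-- the field of discriminant `Dm m` -/
lemma field_of {m : ℤ} (hm : Squarefree m) (h1 : m ≠ 1) : IsDisc (Dm m) := by
  obtain ⟨K, i1, i2, r, h2, hr⟩ := Pool.Agent.N875.K17.exists_K hm h1
  exact ⟨K, i1, i2, h2, Pool.Agent.N875.K17.discr_Dm hm h1 (Pool.Agent.N875.K17.qd_of hm h1 h2 hr)⟩

/-- the 2-part for a good `m` -/
lemma holds_of (H : Hyps) {m : ℤ} (hm : Squarefree m) (h1 : m ≠ 1) (hm1 : m ≠ -1) (h17 : m ≠ 17)
    (hS : Sg m) {k : ℕ} (hk : tt m = rr m + k) : Holds (Dm m) k := by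
  refine ⟨field_of hm h1, fun K _ _ h2 hD => ?_⟩
  have hD1 : discr K ≠ -4 := by
    rw [hD]
    unfold Pool.Agent.N875.K17.Dm
    split_ifs <;> omega
  have hD17 : discr K ≠ 17 := by
    rw [hD]
    unfold Pool.Agent.N875.K17.Dm
    split_ifs <;> omega
  have hsel : NoSelmer (discr K) := by
    rw [hD]
    exact (Pool.Agent.N875.K17.sel_iff hm).2 hS
  obtain ⟨h3, h4⟩ := (criterion H K h2 hD1 hD17).2.2.2.2.2.2.2.1 hsel
  obtain ⟨m', r, hm', h1', hr⟩ := Pool.Agent.N875.K17.exists_m (K := K) h2
  have hq : Qd m' K r := Pool.Agent.N875.K17.qd_of hm' h1' h2 hr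
  have hdisc : discr K = Dm m' := Pool.Agent.N875.K17.discr_Dm hm' h1' hq
  have hmm : m' = m := by
    have e1 := (Pool.Agent.N875.K17.fund_Dm hm').2
    have e2 := (Pool.Agent.N875.K17.fund_Dm hm).2
    rw [← e1, ← hdisc, hD, e2]
  subst hmm
  have hram : ram K = tt m' := by
    unfold ram
    rw [hdisc, Pool.Agent.N875.K17.tt_Dm hm.ne_zero]
  have hinf : inf K = rr m' := Pool.Agent.N875.K17.inf_eq hm h1 hq
  have e : ram K = inf K + k := by rw [hram, hinf, hk]
  refine ⟨e, ?_⟩
  have e2 : ram K - inf K = k := by omega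
  rwa [e2] at h4

/-- the converse -/
lemma sel_of_holds (H : Hyps) {D : ℤ} {k : ℕ} (h : Holds D k) (h4 : D ≠ -4) (h17 : D ≠ 17) :
    Pool.Agent.N919.BS.Fund D ∧ Sg (Pool.Agent.N919.BS.core D) := by
  obtain ⟨⟨K, i1, i2, h2, hD⟩, h3⟩ := h
  obtain ⟨h5, h6⟩ := h3 K h2 hD
  have hc := criterion H K h2 (by rw [hD]; exact h4) (by rw [hD]; exact h17)
  have hsel := hc.2.2.2.2.2.2.2.2 ⟨by omega, by
    have e : ram K - inf K = k := by omega
    rw [e]
    exact h6⟩
  obtain ⟨m, r, hm, h1, hr⟩ := Pool.Agent.N875.K17.exists_m (K := K) h2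
  have hq : Qd m K r := Pool.Agent.N875.K17.qd_of hm h1 h2 hr
  have hdisc : discr K = Dm m := Pool.Agent.N875.K17.discr_Dm hm h1 hq
  rw [hdisc] at hsel
  have hS := (Pool.Agent.N875.K17.sel_iff hm).1 hsel
  obtain ⟨e1, e2⟩ := Pool.Agent.N875.K17.fund_Dm hm
  rw [← hD, hdisc, e2]
  exact ⟨e1, hS⟩

/-- **the densities** -/
lemma dens_B (H : Hyps) (B : ℕ) :
    Tendsto (fun X : ℕ => (count (fun D => ∃ k, B ≤ k ∧ Holds D k) X : ℝ) / (count IsDisc X : ℝ))
      atTop (𝓝 (cc / 2)) := by
  have h1 := Pool.Agent.N875.K17.dens_all H.CRIT (Q := fun D => ∃ k, B ≤ k ∧ Holds D k)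
    {1, -4, 17} (B + 3) (fun D hD => ?_) (fun D hF hS => ?_)
  · have e : (fun X : ℕ => (count (fun D => ∃ k, B ≤ k ∧ Holds D k) X : ℝ) / (count IsDisc X : ℝ)) =
        (fun X : ℕ => (Pool.Agent.N875.K17.ct (fun D => ∃ k, B ≤ k ∧ Holds D k) X : ℝ) /
          (Pool.Agent.N875.K17.ct (fun D => Pool.Agent.N919.BS.Fund D ∧ D ≠ 1) X : ℝ)) := by
      funext X
      have e1 : count IsDisc X =
          Pool.Agent.N875.K17.ct (fun D => Pool.Agent.N919.BS.Fund D ∧ D ≠ 1) X := by
        unfold count Pool.Agent.N875.K17.ct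
        refine Nat.card_congr (Equiv.subtypeEquivRight fun D => ?_)
        exact and_congr Iff.rfl Pool.Agent.N875.K17.isDisc_iff
      rw [e1]
      rfl
    rw [e]
    exact h1
  · obtain ⟨k, -, hk⟩ := hD
    by_cases h4 : D = -4
    · exact Or.inr (by simp [h4])
    by_cases h17 : D = 17
    · exact Or.inr (by simp [h17])
    exact Or.inl (sel_of_holds H hk h4 h17)
  · obtain ⟨hm, hDm⟩ := Pool.Agent.N875.K17.fund_core hF
    by_cases h1 : D = 1
    · exact Or.inr (Or.inl (by simp [h1]))
    by_cases h4 : D = -4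
    · exact Or.inr (Or.inl (by simp [h4]))
    by_cases h17 : D = 17
    · exact Or.inr (Or.inl (by simp [h17]))
    set m := Pool.Agent.N919.BS.core D with hmd
    have g1 : m ≠ 1 := by
      intro h
      rw [h] at hDm
      exact h1 hDm.symm
    have g2 : m ≠ -1 := by
      intro h
      rw [h] at hDm
      exact h4 hDm.symm
    have g3 : m ≠ 17 := by
      intro h
      rw [h] at hDm
      exact h17 hDm.symm
    by_cases hfew : D.natAbs.primeFactors.card < B + 3
    · exact Or.inr (Or.inr hfew)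
    · left
      have e1 : tt m = (D.natAbs.primeFactors.erase 17).card := by
        rw [← Pool.Agent.N875.K17.tt_Dm hm.ne_zero, hDm]
      have e2 := Finset.pred_card_le_card_erase (s := D.natAbs.primeFactors) (a := 17)
      have e3 : rr m ≤ 2 := by
        unfold Pool.Agent.N875.K17.rr
        split_ifs <;> omega
      refine ⟨tt m - rr m, by omega, ?_⟩
      have h5 := holds_of H hm g1 g2 g3 hS (k := tt m - rr m) (by omega)
      rwa [hDm] at h5

lemma infinite_neg (H : Hyps) (k : ℕ) : {D : ℤ | D < 0 ∧ Holds D k}.Infinite := by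
  refine (Pool.Agent.N875.K17.inf_neg k).mono ?_
  rintro m ⟨h0, hm, h4, hS, hm1, hk⟩
  have e : Dm m = m := if_pos h4
  have := holds_of H hm (by omega) hm1 (by omega) hS hk
  rw [e] at this
  exact ⟨h0, this⟩

lemma infinite_pos (H : Hyps) (k : ℕ) : {D : ℤ | 0 < D ∧ Holds D k}.Infinite := by
  refine (Pool.Agent.N875.K17.inf_pos k).mono ?_
  rintro m ⟨h0, hm, h4, hS, h1, h17, hk⟩
  have e : Dm m = m := if_pos h4
  have := holds_of H hm h1 (by omega) h17 hS hk
  rw [e] at this
  exact ⟨h0, this⟩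

end proof

/-- **Main theorem.** The statement `Criterion K` holds for all the quadratic fields `K` except `ℚ(i)` and
`ℚ(√17)`. Among all the quadratic fields `K`, real and imaginary, ordered by the absolute value of the
discriminant, the proportion of the `K` such that the 2-part of the conjecture `TwoPart` holds for `E`
over `K`, with `Ш[2^∞]` a vector space of dimension `2 (t - r)` over the field with two elements, is
exactly `c / 2 = 0.2097…`, and it is the same for the `K` with `t - r ≥ B`, for every `B`. For every `k`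
there are infinitely many real and infinitely many imaginary `K` with `Ш[2^∞]` of order `4 ^ k`. -/
theorem result :
    (∀ (K : Type) [Field K] [NumberField K], IsQuad K → discr K ≠ -4 → discr K ≠ 17 →
      Criterion K) ∧
    (0.4194 < cc ∧ cc < 0.4195) ∧
    (∀ B : ℕ, Tendsto (fun X : ℕ => (count (fun D => ∃ k, B ≤ k ∧ Holds D k) X : ℝ) /
      (count IsDisc X : ℝ)) atTop (𝓝 (cc / 2))) ∧
    ∀ k : ℕ, {D : ℤ | D < 0 ∧ Holds D k}.Infinite ∧ {D : ℤ | 0 < D ∧ Holds D k}.Infinite := by
  have H := Pool.Agent.N875.K17.hyps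
  exact ⟨fun K _ _ h2 h4 h17 => criterion H K h2 h4 h17, Pool.Agent.N875.K17.c2_bounds,
    dens_B H, fun k => ⟨infinite_neg H k, infinite_pos H k⟩⟩

end Pool.Agent.Results.MP_e996df_nt.TwoPartX17Quadratic
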