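import Pool.Agent.N843.TT.FourInf

/-!
# The refined conjecture of Birch and Swinnerton-Dyer for `X_0(49)` in multiquadratic extensions of
# `ℚ(√-7)`: the next field and infinite towers

`E` is the curve `y² + x y = x³ - x² - 2 x - 1` over `ℚ`, of conductor `49`, and `K = ℚ(√-7)`, that is, a
number field of degree two with an integer `a` such that `a² = a - 2`. Let `d_1, …, d_n` be squarefree
integers of `K`, congruent to `1` modulo `4` and prime to `√-7 = 2 a - 1`, independent modulo squares, and
`L = K(√d_1, …, √d_n)`, of degree `2 ^ n` over `K` (`n = 0`: `L = K`). The tuple (and the field `L`) is called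
good if the twists over `K` of `E` by all the `2 ^ n` products of some of the `d_i` have finitely many
points over `K` and no element of order two in `Ш` (a condition on the side of algebra only).

* If `L` is good then `E(L)` has exactly four elements (so it is `E(K)`), the rank conjecture holds for
  `E` over `L`, `L(E/L, s)` times
  finitely many Euler polynomials is entire and not zero at `1`, and the 2-primary part of `Ш(E/L)` is
  finite and killed by `2 ^ n`; and over **all** the `2 ^ n - 1` quadratic extensions `F = K(√d_T)`,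
  `d_T = ∏_{i ∈ T} d_i`, of `K` in `L` the 2-part of the refined formula holds: `L(E/F, s)` is entire, not zero
  at `1`, and `L(E/F, 1) √|disc F| #E(F)_tors² / (∏ Ω_v ∏ c_v)` has at every valuation above `2` the same
  value as the order of the 2-primary part of `Ш(E/F)`, which is exactly `4 ^ (t - g)`, where `t` is the
  number of the places of `K` ramified in `F` and `g` is the number of the places of `F` above `7`.
* For every good `L` the integers `e` for which `L(√e)` is again good and, for a given `B`, `Ш(E/F)` has at
  least `B` elements in its 2-primary part for all the new quadratic extensions `F = K(√(e d_T))`, have the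
  natural density **exactly** `c2 ^ (2 ^ n)`, `c2 = ∏_{i ≥ 1} (1 - 2^(-i)) = 0.288…`, among all the squarefree
  `e ≡ 1 mod 4` prime to `√-7` and the `d_i`, ordered by the norm.
* `K` is good, and every good `L` is the first layer of an infinite tower
  `L ⊂ L(√q_0) ⊂ L(√q_0, √q_1) ⊂ …` of good fields, with new quadratic extensions over which the orders of
  the 2-primary parts of `Ш` tend to infinity. Over the union `L(√q_0, √q_1, …)` of the layers, an infinite
  extension of `K` with the group `(ℤ/2)^∞`, the curve `E` has exactly four points.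

The formula over one quadratic extension is `MP_9ab903_nt/TwoPartX49Quadratic` (helper873), the statement
over `L` is `MP_cd906c_nt/MultiquadraticX49` (starting file), the joint law of the twists is in
`Pool/Agent/R426/QJ`. For `MP_32c55d_nt/AllMultiquadratic` and `MP_1a91b9_nt/AlmostAllConductors` (helper869)
all the fields `L` vary; here the lower field is fixed and arbitrary.
-/

set_option autoImplicit false

namespace Pool.Agent.Results.MP_e996df_nt.RefinedTowersX49

open NumberField IsDedekindDomain Filter
open Pool.Agent.Results.MP_cd906c_nt.MultiquadraticX49 (curve InClass NoSelmer Independent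
  Conclusion c2)
open Pool.Agent.Results.MP_9ab903_nt.TwoPartX49Quadratic (X49 Exact shaTwo)

/-- The tuple `d` is good: for all the `N` in the class (squarefree, congruent to `1` modulo `4`, prime to
`√-7`) that are, up to squares, a product of some of the `d i`, the twist `E_N` of `X_0(49)` has finitely many
points over `K` and no element of order two in `Ш(E_N/K)`. -/
def Good {K : Type} [Field K] [NumberField K] (a : 𝓞 K) {n : ℕ} (d : Fin n → 𝓞 K) : Prop :=
  ∀ (T : Finset (Fin n)) (N c : 𝓞 K), InClass a N → c ≠ 0 → ∏ i ∈ T, d i = N * c ^ 2 →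
    NoSelmer (curve (N : K))

/-- The statement for `X_0(49)` over the number fields `L = K(√d_1, …, √d_n)`: the degree over `K` is
`2 ^ n`, the group `E(L)` is finite, the rank conjecture holds, the `L`-series without the Euler factors
at the places dividing `14 ∏ d_i` is entire and not zero at `1`, the 2-primary part of `Ш(E/L)`
is finite and killed by `2 ^ n`, and `E(L)` has exactly four elements. -/
def RankZero {K : Type} [Field K] [NumberField K] {n : ℕ} (d : Fin n → 𝓞 K) : Prop :=
  ∀ (L : Type) [Field L] [NumberField L] [Algebra K L] (x : Fin n → L),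
    (∀ i, x i ^ 2 = algebraMap K L (d i)) → IntermediateField.adjoin K (Set.range x) = ⊤ →
    Conclusion K n (algebraMap (𝓞 K) (𝓞 L) (14 * ∏ i, d i)) (X49 L) ∧
      Nat.card (X49 L).toAffine.Point = 4

/-- The refined conjecture over the quadratic extensions `F = K(√d_T)`, `d_T = ∏_{i ∈ T} d_i`, for all the
nonempty `T`: up to squares `d_T` is an `N` in the class, and the statement `Exact N F` holds (the 2-part
of the formula for `X_0(49)` over `F`, with a 2-primary part of `Ш` of exactly `4 ^ (t - g)` elements, `t`
the number of the places of `K` that divide `N` and `g` the number of the places of `F` above `7`). -/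
def Refined {K : Type} [Field K] [NumberField K] (a : 𝓞 K) {n : ℕ} (d : Fin n → 𝓞 K) : Prop :=
  ∀ T : Finset (Fin n), T.Nonempty → ∃ N c : 𝓞 K, InClass a N ∧ c ≠ 0 ∧ ∏ i ∈ T, d i = N * c ^ 2 ∧
    ∀ (F : Type) [Field F] [NumberField F] [Algebra K F], Module.finrank K F = 2 →
      (∃ x : F, x ^ 2 = algebraMap K F ((∏ i ∈ T, d i : 𝓞 K) : K)) → Exact N F

/-- The 2-primary part of `Ш(X_0(49)/F)` has at least `B` elements for all the quadratic extensions
`F = K(√(e d_T))`, `d_T = ∏_{i ∈ T} d_i`, `T` any subset of `{1, …, n}`. -/
def Large {K : Type} [Field K] [NumberField K] (B : ℕ) {n : ℕ} (d : Fin n → 𝓞 K) (e : 𝓞 K) :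
    Prop :=
  ∀ (T : Finset (Fin n)) (F : Type) [Field F] [NumberField F] [Algebra K F],
    Module.finrank K F = 2 →
      (∃ x : F, x ^ 2 = algebraMap K F ((e * ∏ i ∈ T, d i : 𝓞 K) : K)) → B ≤ shaTwo (X49 F)

/-- `E` has exactly four points over the fields `K(√d_1, …, √d_n, √q_0, √q_1, …)`. -/
def FourPoints {K : Type} [Field K] [NumberField K] {n : ℕ} (d : Fin n → 𝓞 K) (q : ℕ → 𝓞 K) :
    Prop :=
  ∀ (M : Type) [Field M] [Algebra K M] (x : Fin n → M) (y : ℕ → M),
    (∀ i, x i ^ 2 = algebraMap K M (d i)) → (∀ j, y j ^ 2 = algebraMap K M (q j)) →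
      IntermediateField.adjoin K (Set.range x ∪ Set.range y) = ⊤ →
        Nat.card (X49 M).toAffine.Point = 4

/-- The elements of norm at most `X` of the class that are prime to the `d_i`. -/
def family {K : Type} [Field K] [NumberField K] (a : 𝓞 K) {n : ℕ} (d : Fin n → 𝓞 K) (X : ℕ) :
    Set (𝓞 K) :=
  {e | Ideal.absNorm (Ideal.span {e}) ≤ X ∧ InClass a e ∧ ∀ i, IsCoprime e (d i)}

/-- The elements `e` of the family for which the tuple `(d_1, …, d_n, e)` is independent modulo squares and
good, and `Large B d e` holds. -/
def next {K : Type} [Field K] [NumberField K] (a : 𝓞 K) (B : ℕ) {n : ℕ} (d : Fin n → 𝓞 K) (X : ℕ) :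
    Set (𝓞 K) :=
  {e ∈ family a d X | Independent (Fin.snoc d e : Fin (n + 1) → 𝓞 K) ∧
    Good a (Fin.snoc d e : Fin (n + 1) → 𝓞 K) ∧ Large B d e}

/-- **Main theorem.** The rank conjecture over `K(√d_1, …, √d_n)` and the refined conjecture over all its
quadratic subextensions `K(√d_T)` for the good tuples; the exact natural density of the next fields; and
infinite towers over every good field. -/
theorem result (K : Type) [Field K] [NumberField K] (a : 𝓞 K) (ha : a ^ 2 = a - 2)
    (hK : Module.finrank ℚ K = 2) :
    -- the field `K` is good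
    (∀ d : Fin 0 → 𝓞 K, Good a d) ∧
    ∀ (n : ℕ) (d : Fin n → 𝓞 K), (∀ i, InClass a (d i)) → Independent d → Good a d →
      -- the conjectures for a good tuple
      RankZero d ∧ Refined a d ∧
      -- the next field
      (∀ B : ℕ, Tendsto (fun X : ℕ => ((next a B d X).ncard : ℝ) / ((family a d X).ncard : ℝ)) atTop
        (nhds (c2 ^ (2 ^ n)))) ∧
      (∃ δ : ℝ, 0 < δ ∧ ∀ᶠ X : ℕ in atTop, δ * X ≤ ((family a d X).ncard : ℝ)) ∧
      -- infinite towers
      (∃ q : ℕ → 𝓞 K, (∀ j, InClass a (q j)) ∧ FourPoints d q ∧
        ∀ k, Independent (Fin.append d fun i : Fin k => q i) ∧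
        Good a (Fin.append d fun i : Fin k => q i) ∧
        RankZero (Fin.append d fun i : Fin k => q i) ∧
        Refined a (Fin.append d fun i : Fin k => q i) ∧
        Large k (Fin.append d fun i : Fin k => q i) (q k)) ∧
      0.288 < c2 ∧ c2 < 0.289 := by
  obtain ⟨-, -, -, h3, h4⟩ := Pool.Agent.R426.QK.MOM.t_C2
  have hover : ∀ (n : ℕ) (d : Fin n → 𝓞 K), (∀ i, InClass a (d i)) → Independent d → Good a d →
      RankZero d ∧ Refined a d := fun n d hd hind hg =>
    ⟨fun L _ _ _ x hx hL => ⟨Pool.Agent.N843.TT.overX ha hK hd hind hg L x hx hL,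
      Pool.Agent.N843.TT.fourX ha hK hd hind hg L x hx hL⟩,
      fun T hT => Pool.Agent.N843.TT.refX ha hK hd hind hg T hT⟩
  refine ⟨fun d => Pool.Agent.N843.TT.good_zero ha hK d, fun n d hd hind hg => ?_⟩
  obtain ⟨g1, g2⟩ := hover n d hd hind hg
  refine ⟨g1, g2, fun B => (Pool.Agent.N843.TT.law_large ha hK hd hind hg B).1,
    (Pool.Agent.N843.TT.law_large ha hK hd hind hg 0).2, ?_, h3, h4⟩
  obtain ⟨q, q1, q2⟩ := Pool.Agent.N843.TT.towers_large ha hK hd hind hg
  refine ⟨q, q1, fun M _ _ x y hx hy hM => Pool.Agent.N843.TT.fourXInf ha hK hd q1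
    (fun k => (q2 k).1) (fun k => (q2 k).2.1) M x y hx hy hM, fun k => ?_⟩
  obtain ⟨k1, k2, k3⟩ := q2 k
  obtain ⟨m1, m2⟩ := hover _ (Fin.append d fun i : Fin k => q i) (fun i => by
    refine Fin.addCases (fun j => ?_) (fun j => ?_) i
    · rw [Fin.append_left]
      exact hd j
    · rw [Fin.append_right]
      exact q1 j) k1 k2
  exact ⟨k1, k2, m1, m2, k3⟩

end Pool.Agent.Results.MP_e996df_nt.RefinedTowersX49
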