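import Mathlib
import Pool.Agent.N883.FG.End

/-!
# The `3`-part of the formula of Birch and Swinnerton-Dyer over `ℚ(√-3)` for a majority of ALL the cubic
# twists of `y² + y = x³` by elements prime to `3`

`K` is the field of the third roots of unity.  `D` runs through the cube-free nonunits of `𝓞 K` that
are congruent to a third root of unity modulo `3`: every cubic twist of `E : y² + y = x³` by an element
prime to `3` (except `E` itself and its twists by units) is isomorphic to `E_D : y² + D y = x³` for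
exactly one of these `D`.

* For all these `D` outside of one of the nine classes of `D` modulo cubes of the completion at `√-3`,
  the series `L(E_D / K, s)` is continued to an entire function, and the quotient `ρ` of
  `L(E_D / K, 1)` and of the right-hand side of the conjecture (for rank `0`) without the order of `Ш` is
  integral at every valuation of `ℂ` above `3`, and it is a unit there if and only if `E_D(K)` is finite
  and `Ш(E_D / K)[3^∞] = 0`.
* This is the case exactly when the graph of the cubic residue symbols, with the prime divisors of `D`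
  and the unit `ω` as vertices, is connected in the sense of `ZMod 3`.
* The proportion, among ALL the `D`, of those for which `E_D(K)` is finite, `Ш(E_D / K)[3^∞] = 0`,
  `L(E_D / K, 1) ≠ 0` and `ρ` is a unit above `3` tends to
  `8 / 9 * ∏_{i ≥ 0} (1 - 3^{-(2 i + 1)}) = 0.5680...`.

The two classes of the cube-free `D = 1` modulo `3` with norm not `1` modulo `9` are the starting file
`MP_e996df_nt/ThreePartCubeFree`; the six classes `D = ω, ω²` modulo `3` and the count of all the
classes together are new (projects FF and FG).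

The group `Sha` of the library is the group of the continuous cocycles of the absolute Galois group
of `K` with values in the points over an algebraic closure of `K` that are coboundaries at all the
places, modulo the coboundaries.  `NonsingRed v W P` says that `P` is the point at infinity or that
one of the partial derivatives of the equation at `P` is not in the maximal ideal.

Joint work; see the headers of `Pool/Agent/N883/FG/End.lean`, `Pool/Agent/N883/FF/End.lean` and of the
files that they import.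
-/

set_option autoImplicit false

namespace Pool.Agent.Results.MP_e996df_nt.MajorityThreePart

open NumberField IsDedekindDomain WeierstrassCurve
open Pool.Agent.TH841.NF.D (Sha)
open Pool.Agent.Y696 (NonsingRed)
open scoped Classical

/-- The curve `E_D : y² + D y = x³`. -/
def curve {K : Type} [Field K] (D : K) : WeierstrassCurve K := ⟨0, 0, D, 0, 0⟩

variable {K : Type} [Field K] [NumberField K]

/-- `D` is a cube-free nonunit, congruent to a third root of unity modulo `3`. -/
def InFamily (D : 𝓞 K) : Prop :=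
  ¬ IsUnit D ∧ (∀ x : 𝓞 K, x ^ 3 ∣ D → IsUnit x) ∧ ∃ ω : 𝓞 K, ω ^ 3 = 1 ∧ (3 : 𝓞 K) ∣ D - ω

/-- The exceptional class: `D` is `1` modulo `3` and its norm is `1` modulo `9`. -/
def Exceptional (D : 𝓞 K) : Prop := (3 : 𝓞 K) ∣ D - 1 ∧ (9 : ℤ) ∣ Algebra.norm ℤ D - 1

/-- The equation `W` is minimal at every finite place `v`, the number `c v` is the index of the
group of the points of nonsingular reduction in `W(K_v)` (the Tamagawa number), and `c v = 1` for
all but finitely many `v`. -/
def IsTamagawa (W : WeierstrassCurve K) (c : HeightOneSpectrum (𝓞 K) → ℕ) : Prop :=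
  (∀ v : HeightOneSpectrum (𝓞 K),
    IsMinimal (v.adicCompletionIntegers K) (W.baseChange (v.adicCompletion K)) ∧
    ∃ H : AddSubgroup (W.baseChange (v.adicCompletion K)).toAffine.Point,
      (∀ P, P ∈ H ↔ NonsingRed Valued.v (W.baseChange (v.adicCompletion K)) P) ∧
      H.index = c v) ∧
  {v | c v ≠ 1}.Finite

/-- `E_D(K)` is finite and the `3`-primary part of `Ш(E_D / K)` is trivial. -/
def FiniteAndTrivial (D : 𝓞 K) : Prop :=
  Finite (curve (D : K)).toAffine.Point ∧ ∀ (n : ℕ) (x : Sha (curve (D : K))), 3 ^ n • x = 0 → x = 0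

/-- The order of the torsion subgroup of `E_D(K)`. -/
noncomputable def torsionOrder (D : 𝓞 K) : ℕ :=
  Nat.card (AddCommGroup.torsion (curve (D : K)).toAffine.Point)

/-- The torsion subgroup of `E_D(K)` is finite, of order divisible by `3` and not by `9`; `Lf` is an
entire function equal to `L(E_D / K, s)` for `Re s > 3 / 2`; for every embedding `σ` of `K` and every
pair of periods `ω₁, ω₂` of a lattice `Λ` with `g₂ = 0`, `g₃ = - σ(D)²` (the period lattice of
`E_D`; `A = |Im (conj ω₁ ω₂)|` is the area of a period parallelogram, and `2 A` is the factor of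
`Ω(E_D)` at the complex place; such a `Λ` exists)
`Lf 1 = ρ · 2 A · ∏ c_v / (√|Δ(K)| |E_D(K)_tors|²)`, where `ρ` is integral at every valuation `v` of
`ℂ` above `3`, and a unit if and only if `E_D(K)` is finite and `Ш(E_D / K)[3^∞] = 0`. -/
def Law (D : 𝓞 K) : Prop :=
  Finite (AddCommGroup.torsion (curve (D : K)).toAffine.Point) ∧
  padicValNat 3 (torsionOrder D) = 1 ∧
  ∃ (Lf : ℂ → ℂ) (c : HeightOneSpectrum (𝓞 K) → ℕ),
    Differentiable ℂ Lf ∧
    (∀ s : ℂ, 3 / 2 < s.re →
      LSeriesSummable ((fun n : ℤ => (n : ℂ)) ∘ (curve (D : K)).LFunction) s ∧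
        Lf s = (curve (D : K)).LSeries s) ∧
    (FiniteAndTrivial D → Lf 1 ≠ 0) ∧
    IsTamagawa (curve (D : K)) c ∧
    ∀ σ : K →+* ℂ, (∃ Λ : PeriodPair, Λ.g₂ = 0 ∧ Λ.g₃ = -(σ D) ^ 2) ∧
      ∀ Λ : PeriodPair, Λ.g₂ = 0 → Λ.g₃ = -(σ D) ^ 2 → ∃ ρ : ℂ,
        Lf 1 = ρ * (((2 * |((starRingEnd ℂ) Λ.ω₁ * Λ.ω₂).im| : ℝ) : ℂ) * ((∏ᶠ w, c w : ℕ) : ℂ) /
          (((Real.sqrt |(discr K : ℝ)| : ℝ) : ℂ) * (torsionOrder D : ℂ) ^ 2)) ∧
        ∀ (Γ : Type) [LinearOrderedCommGroupWithZero Γ] (v : Valuation ℂ Γ), v 3 < 1 →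
          v ρ ≤ 1 ∧ (v ρ = 1 ↔ FiniteAndTrivial D)

/-- `D = ω ^ i ∏ π k ^ e k` with different primes `π k` that are `1` modulo `3` and exponents
`e k = 1, 2`; the cubic residue symbols of `π k` and of `ω` modulo `π j` are `ω ^ χ j k` and
`ω ^ η j`. -/
def IsFactorization (ω D : 𝓞 K) (n : ℕ) (π : Fin n → 𝓞 K) (e : Fin n → ZMod 3) (i : ZMod 3)
    (χ : Fin n → Fin n → ZMod 3) (η : Fin n → ZMod 3) : Prop :=
  (∀ k, Prime (π k) ∧ (3 : 𝓞 K) ∣ π k - 1 ∧ e k ≠ 0) ∧ D = ω ^ i.val * ∏ k, π k ^ (e k).val ∧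
  (∀ k j, k ≠ j → ¬ π j ∣ π k ∧
    π j ∣ π k ^ (((Algebra.norm ℤ (π j)).natAbs - 1) / 3) - ω ^ (χ j k).val) ∧
  ∀ j, π j ∣ ω ^ (((Algebra.norm ℤ (π j)).natAbs - 1) / 3) - ω ^ (η j).val

/-- The weighted Laplacian over the field with three elements of the graph with the vertices `π k`
(values `v k`) and `ω` (value `t`) has no solutions besides the multiples of `v k = 1`, `t = i`. -/
def IsConnected {n : ℕ} (e : Fin n → ZMod 3) (i : ZMod 3) (χ : Fin n → Fin n → ZMod 3)
    (η : Fin n → ZMod 3) : Prop :=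
  ∀ (v : Fin n → ZMod 3) (t : ZMod 3),
    (∀ j, ∑ k, e k * χ j k * (v k - v j) + η j * (t - i * v j) = 0) →
    ∀ j, t = i * v j ∧ ∀ k, v k = v j

/-- `D` has a factorization, and for each one: `E_D(K)` is finite and `Ш(E_D / K)[3^∞] = 0` if and
only if the graph is connected. -/
def Criterion (D : 𝓞 K) : Prop :=
  (∃ (ω : 𝓞 K) (n : ℕ) (π : Fin n → 𝓞 K) (e : Fin n → ZMod 3) (i : ZMod 3)
    (χ : Fin n → Fin n → ZMod 3) (η : Fin n → ZMod 3),
    ω ^ 2 + ω + 1 = 0 ∧ IsFactorization ω D n π e i χ η) ∧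
  ∀ (ω : 𝓞 K) (n : ℕ) (π : Fin n → 𝓞 K) (e : Fin n → ZMod 3) (i : ZMod 3)
    (χ : Fin n → Fin n → ZMod 3) (η : Fin n → ZMod 3),
    ω ^ 2 + ω + 1 = 0 → IsFactorization ω D n π e i χ η →
      (FiniteAndTrivial D ↔ IsConnected e i χ η)

theorem result (K : Type) [Field K] [NumberField K] [IsCyclotomicExtension {3} ℚ K] :
    (∃ c : ℝ, 0 < c ∧ ∃ X₀ : ℕ, ∀ X : ℕ, X₀ ≤ X →
      c * X ≤ ({D : 𝓞 K | Algebra.norm ℤ D ≤ X ∧ InFamily D}.ncard : ℝ)) ∧
    (∀ D : 𝓞 K, InFamily D → ¬ Exceptional D → Law D ∧ Criterion D) ∧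
    Filter.Tendsto (fun X : ℕ =>
      ({D : 𝓞 K | Algebra.norm ℤ D ≤ X ∧ InFamily D ∧ ¬ Exceptional D ∧
        FiniteAndTrivial D}.ncard : ℝ) /
        ({D : 𝓞 K | Algebra.norm ℤ D ≤ X ∧ InFamily D}.ncard : ℝ)) Filter.atTop
      (nhds (8 / 9 * ∏' i : ℕ, (1 - (1 / 3 : ℝ) ^ (2 * i + 1)))) ∧
    (0.568 : ℝ) < 8 / 9 * ∏' i : ℕ, (1 - (1 / 3 : ℝ) ^ (2 * i + 1)) :=
  Pool.Agent.N883.FG.finalC K

end Pool.Agent.Results.MP_e996df_nt.MajorityThreePart
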