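import Pool.Agent.N856.QB.Main

/-!
# The 2-part of the strong conjecture of Birch and Swinnerton-Dyer for the quadratic twists of `X_0(15)`
# over real quadratic fields: criterion, order of `Ш`, joint densities

`E_{-n}` is the twist by `-n` of the modular curve `X_0(15)`, `n` squarefree, `n ≡ 23, 47` modulo `60`, and
`K = ℚ(√d)` is a real quadratic field, `d > 1` squarefree, prime to `n`, `d ≡ 1` modulo `12`,
`d ≡ ± 1` modulo `5`, so that `d` is the discriminant of `K`, and `3` and `5` split. There is no condition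
on the number of the prime factors of `n` and `d`. Let `i` be the number of the prime factors of `n` that
are inert in `K` and `D = ω(d) + i - 2`. We prove:

* For all these pairs `(n, d)`, the equation of `E_{-n}` is minimal at all the places of `K`,
  `∏ c_v = 4 ^ (2 + 2 s + i)`, where `s` is the number of the prime factors of `n` that split in `K`, the
  order of the torsion subgroup is four times an odd number, `L(E_{-n}/K, s)` is entire, and
  `z = L(E_{-n}/K, 1) √d #E(K)_tors² / (Ω² ∏ c_v)` is `u 4 ^ D y²` with a rational number `u`, which is a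
  unit at two, and an integer `y`.
* The integer `y` is odd iff `E_{-n}` and `E_{-nd}` have finitely many rational points and no element of
  order two in `Ш` over `ℚ`, iff the imaginary quadratic fields `ℚ(√-n)` and `ℚ(√-nd)` have no ideal class
  of order four, iff the 2-part of the conjecture of Birch and Swinnerton-Dyer holds for `E_{-n}` over `K`
  with `Ш(E_{-n}/K)[2^∞]` an elementary group of order `4 ^ D`: `E_{-n}(K)` is finite, `L(E_{-n}/K, 1) ≠ 0`,
  `Ш(E_{-n}/K)[2^∞] = (ℤ/2)^(2 D)`, and the 2-adic valuation of `z` is `2 D`.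
* For every finite nonempty set `𝒟` of the numbers `d`, the natural density of the `n` with this property
  for all the fields `ℚ(√d)`, `d` in `𝒟`, among the `n` of the class, is exactly
  `η ^ (#𝒟 + 1)`, `η = (1 - 1/2) (1 - 1/4) (1 - 1/8) ⋯ = 0.2887…`. At the same time
  `D = (1/2 + o(1)) log log n`: the dimension of `Ш(E_{-n}/K)[2]` is about `log log n`.

Proof. The 2-descent over `K`: under the condition on the class groups the classes of
`H¹(K, E_{-n}[2])` that are everywhere locally trivial come from `ℚ` (norms), and the local conditions at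
all the places of `K` are computed, with the result that the 2-Selmer group is of order
`4 ^ (D + 1)`; the group `Ш(E_{-n}/K)[2^∞]` is killed by two as `Ш(E_{-n}/ℚ)` and `Ш(E_{-nd}/ℚ)` have no
element of order two. The central value is `L(E_{-n}, 1) L(E_{-nd}, 1)`, and these values are known up to
squares of odd numbers (the weight 3/2 form of Waldspurger type, library `N575`, `N969`, `N875`). The
joint density of the numbers `n d` without class of order four is the theorem of
`Pool/Agent/N856/JL` (helper856 and helpers named there).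
The pieces of this theorem are the work of helper891 (descent), helper73 (norms, normal orders),
helper49, helper691, helper833, helper763, helper689 (local conditions), helper574 (counting), helper717
(torsion, minimality), helper106 (Tamagawa numbers, L-function), helper856.
-/

set_option autoImplicit false

open NumberField IsDedekindDomain WeierstrassCurve MeasureTheory Filter Topology

namespace Pool.Agent.Results.MP_e996df_nt.TwoPartTwistsX15Real

open scoped Classical

open Pool.Agent.TH841.NF.D (Sha)

/-- The curve given by the equation of `W` over the ring `R`. -/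
abbrev base (W : WeierstrassCurve ℤ) (R : Type) [CommRing R] : WeierstrassCurve R :=
  W.map (Int.castRingHom R)

/-- The number of the affine points `(x, y)` over the ring `R`. -/
noncomputable def pts (W : WeierstrassCurve ℤ) (R : Type) [CommRing R] : ℕ :=
  Nat.card {P : R × R // (base W R).toAffine.Equation P.1 P.2}

section

variable {K : Type} [Field K] [NumberField K]

/-- `a_v = N v + 1 - #W(k_v)`, the points over the residue field `k_v` counted with the point at
infinity. -/
noncomputable def a (W : WeierstrassCurve ℤ) (v : HeightOneSpectrum (𝓞 K)) : ℤ :=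
  (Ideal.absNorm v.asIdeal : ℤ) - pts W (𝓞 K ⧸ v.asIdeal)

/-- The Euler factor of `L(W/K, s)` at `v` : `(1 - a_v N v^(-s) + N v^(1 - 2 s))⁻¹` if the
discriminant is a unit at `v`, and `(1 - a_v N v^(-s))⁻¹` otherwise. -/
noncomputable def factor (W : WeierstrassCurve ℤ) (s : ℂ) (v : HeightOneSpectrum (𝓞 K)) : ℂ :=
  (1 - (a W v : ℂ) * (Ideal.absNorm v.asIdeal : ℂ) ^ (-s) +
    if ((W.Δ : ℤ) : 𝓞 K) ∈ v.asIdeal then 0 else (Ideal.absNorm v.asIdeal : ℂ) ^ (1 - 2 * s))⁻¹

/-- The equation is minimal at the finite place `v` of `K`: no change of variables over `K` that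
keeps the coefficients integral at `v` decreases the valuation of the discriminant. -/
def MinimalAt (W : WeierstrassCurve ℤ) (v : HeightOneSpectrum (𝓞 K)) : Prop :=
  ∀ C : VariableChange K, v.valuation K (C • base W K).a₁ ≤ 1 →
    v.valuation K (C • base W K).a₂ ≤ 1 → v.valuation K (C • base W K).a₃ ≤ 1 →
    v.valuation K (C • base W K).a₄ ≤ 1 → v.valuation K (C • base W K).a₆ ≤ 1 →
    v.valuation K (C • base W K).Δ ≤ v.valuation K (base W K).Δ

/-- `E⁰(K_v)`, the group of the points of `W` over the completion `K_v` with nonsingular reduction: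
the points `(x, y)` where `x` is not integral, or one of the partial derivatives of
`y² + a₁ x y + a₃ y - x³ - a₂ x² - a₄ x - a₆` is a unit at `(x, y)`, and the point at infinity. -/
noncomputable def nonsing (W : WeierstrassCurve ℤ) (v : HeightOneSpectrum (𝓞 K)) :
    AddSubgroup (base W (v.adicCompletion K)).toAffine.Point :=
  AddSubgroup.closure {P | ∀ x y h, P = Affine.Point.some x y h →
    1 < Valued.v x ∨ Valued.v (W.a₁ * y - (3 * x ^ 2 + 2 * W.a₂ * x + W.a₄)) = 1 ∨
      Valued.v (2 * y + W.a₁ * x + W.a₃) = 1}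

/-- The Tamagawa number `c_v = [E(K_v) : E⁰(K_v)]` of a minimal equation. -/
noncomputable def c (W : WeierstrassCurve ℤ) (v : HeightOneSpectrum (𝓞 K)) : ℕ :=
  (nonsing W v).index

end

section

variable (K : Type) [Field K] [NumberField K]

/-- The product of the Tamagawa numbers. -/
noncomputable def Tam (W : WeierstrassCurve ℤ) : ℕ := ∏ᶠ v : HeightOneSpectrum (𝓞 K), c W v

/-- The order of the torsion subgroup of `W(K)`. -/
noncomputable def torsOrder (W : WeierstrassCurve ℤ) : ℕ :=
  Nat.card (AddCommGroup.torsion (base W K).toAffine.Point)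

/-- The 2-primary part of the Tate-Shafarevich group over `K`. -/
noncomputable abbrev Sha2 (W : WeierstrassCurve ℤ) : AddSubgroup (Sha (base W K)) :=
  AddCommGroup.primaryComponent (Sha (base W K)) 2

/-- `L` is the L-function of the minimal equation `W` over `K`: it is entire and it is given by the
Euler product for `Re s > 3/2`. -/
def IsL (W : WeierstrassCurve ℤ) (L : ℂ → ℂ) : Prop :=
  Differentiable ℂ L ∧ ∀ s : ℂ, 3 / 2 < s.re → HasProd (factor (K := K) W s) (L s)

end

/-- `4 x³ + b₂ x² + 2 b₄ x + b₆ = (2 y + a₁ x + a₃)²` at the points of the curve. -/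
def cubic (W : WeierstrassCurve ℤ) (x : ℝ) : ℝ :=
  4 * x ^ 3 + W.b₂ * x ^ 2 + 2 * W.b₄ * x + W.b₆

/-- The real period `∫_{W(ℝ)} |dx / (2y + a₁x + a₃)|`. -/
noncomputable def realPeriod (W : WeierstrassCurve ℤ) : ℝ :=
  2 * ∫ x in {x : ℝ | 0 < cubic W x}, 1 / √(cubic W x)

/-- The order of the Tate-Shafarevich group predicted by the formula in rank zero for the curve `W` over
a real quadratic field `K` (there are two real places, with the same period), for the value `l` of the
L-function at `s = 1`: `l √|disc K| #W(K)_tors² / (Ω² ∏ c_v)`. -/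
noncomputable def anOrder (K : Type) [Field K] [NumberField K] (W : WeierstrassCurve ℤ) (l : ℂ) : ℂ :=
  l * (Real.sqrt |(discr K : ℝ)| : ℝ) * (torsOrder K W : ℂ) ^ 2 /
    ((realPeriod W : ℂ) ^ 2 * (Tam K W : ℂ))

/-- The 2-part of the strong conjecture of Birch and Swinnerton-Dyer for the curve `W` over a real
quadratic field `K`, in the case that the rank is zero and `Ш[2^∞]` is a vector space of dimension
`2 m` over the field with two elements: the equation `W` is minimal at all the finite places, `W(K)` is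
finite, `Ш(W/K)[2^∞]` is killed by two and has order `4 ^ m`, `L(W/K, s)` is entire, `L(W/K, 1) ≠ 0`,
and the predicted order of `Ш` is a rational number with 2-adic valuation `2 m`. -/
def TwoPart (K : Type) [Field K] [NumberField K] (W : WeierstrassCurve ℤ) (m : ℕ) : Prop :=
  (∀ v : HeightOneSpectrum (𝓞 K), MinimalAt W v) ∧ Finite (base W K).toAffine.Point ∧
  (∀ x : Sha2 K W, 2 • x = 0) ∧ Nat.card (Sha2 K W) = 4 ^ m ∧
  {v : HeightOneSpectrum (𝓞 K) | c W v ≠ 1}.Finite ∧ 0 < Tam K W ∧ 0 < torsOrder K W ∧
  0 < realPeriod W ∧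
  ∃ (L : ℂ → ℂ) (z : ℚ), IsL K W L ∧ L 1 ≠ 0 ∧ anOrder K W (L 1) = z ∧
    z ≠ 0 ∧ padicValRat 2 z = 2 * m

/-- The twist `E_{-n}` of `X_0(15)` by `-n`, `n ≡ 3` modulo `4`: `y² + x y = x³ - ((7 m + 1)/4) x² - 9 m² x`,
`m = -n`. -/
def E (n : ℕ) : WeierstrassCurve ℤ := ⟨1, -((7 * (-(n : ℤ)) + 1) / 4), 0, -(9 * (-(n : ℤ)) ^ 2), 0⟩

/-- `K` is the quadratic field `ℚ(√d)`. -/
def IsQuad (d : ℕ) (K : Type) [Field K] [NumberField K] : Prop :=
  Module.finrank ℚ K = 2 ∧ ∃ x : K, x ^ 2 = (d : K)

/-- The class of the `n`. -/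
def Twist (n : ℕ) : Prop := Squarefree n ∧ (n % 60 = 23 ∨ n % 60 = 47)

/-- The class of the `d`: `2` is unramified in `ℚ(√d)`, `3` and `5` split. -/
def Disc (d : ℕ) : Prop := Squarefree d ∧ d % 12 = 1 ∧ (d % 5 = 1 ∨ d % 5 = 4)

/-- The curve `E_{-n}` and the field `ℚ(√d)`. -/
def Setting (n d : ℕ) : Prop := Twist n ∧ Disc d ∧ 1 < d ∧ n.Coprime d

/-- The number of the prime factors of `n` that are inert in `ℚ(√d)`. -/
def inert (n d : ℕ) : ℕ := (n.primeFactors.filter fun p => jacobiSym d p = -1).card

/-- The number of the prime factors of `n` that split in `ℚ(√d)`. -/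
def split (n d : ℕ) : ℕ := (n.primeFactors.filter fun p => jacobiSym d p = 1).card

/-- The number of the primes that are ramified in `ℚ(√d)` plus the number of the inert prime factors
of `n`. -/
def dim (n d : ℕ) : ℕ := d.primeFactors.card + inert n d

/-- `E_{-n}(ℚ)` is finite and `Ш(E_{-n}/ℚ)` has no element of order two. -/
def NoSelmer (n : ℕ) : Prop :=
  Finite (base (E n) ℚ).toAffine.Point ∧ ∀ x : Sha (base (E n) ℚ), 2 • x = 0 → x = 0

/-- The imaginary quadratic field `ℚ(√-N)` has no ideal class of order four. -/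
def NoOrderFour (N : ℕ) : Prop :=
  ∀ (K : Type) [Field K] [NumberField K], Module.finrank ℚ K = 2 → (∃ s : K, s ^ 2 = -(N : K)) →
    ∀ c : ClassGroup (𝓞 K), c ^ 4 = 1 → c ^ 2 = 1

/-- `E_{-n}` is good over `ℚ(√d)`: the curves `E_{-n}` and `E_{-nd}` have finitely many rational points and
no element of order two in the Tate-Shafarevich group over `ℚ`. -/
def Good (n d : ℕ) : Prop := NoSelmer n ∧ NoSelmer (n * d)

/-- The statement for all the curves and all the fields `K = ℚ(√d)`. -/
def Criterion (n d : ℕ) (K : Type) [Field K] [NumberField K] : Prop :=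
  (∀ v : HeightOneSpectrum (𝓞 K), MinimalAt (E n) v) ∧
  {v : HeightOneSpectrum (𝓞 K) | c (E n) v ≠ 1}.Finite ∧ 0 < realPeriod (E n) ∧
  Tam K (E n) = 4 ^ (2 + 2 * split n d + inert n d) ∧
  (∃ t : ℕ, Odd t ∧ torsOrder K (E n) = 4 * t) ∧
  (∃ (L : ℂ → ℂ) (u : ℚ) (y : ℤ), IsL K (E n) L ∧ u ≠ 0 ∧ padicValRat 2 u = 0 ∧
    16 * anOrder K (E n) (L 1) = ((u * 4 ^ dim n d * (y : ℚ) ^ 2 : ℚ) : ℂ) ∧
    (Odd y ↔ Good n d)) ∧
  (Good n d ↔ NoOrderFour n ∧ NoOrderFour (n * d)) ∧
  (Good n d ↔ 2 ≤ dim n d ∧ TwoPart K (E n) (dim n d - 2))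

/-- The 2-part of the conjecture for `E_{-n}` over `ℚ(√d)`, with `#Ш(E_{-n}/ℚ(√d))[2^∞] = 4 ^ (dim n d - 2)`. -/
def Proved (n d : ℕ) : Prop := 2 ≤ dim n d ∧
  ∀ (K : Type) [Field K] [NumberField K], IsQuad d K → TwoPart K (E n) (dim n d - 2)

/-- the limit `(1 - 1/2) (1 - 1/4) (1 - 1/8) ⋯` -/
noncomputable def eta : ℝ := ∏' i : ℕ, (1 - (1 / 2 : ℝ) ^ (i + 1))

/-- the number of the `m ≤ X` with the property `P` -/
noncomputable def count (P : ℕ → Prop) (X : ℕ) : ℕ := ((Finset.Icc 1 X).filter fun m => P m).card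

/-- among the numbers with the property `P`, those with the property `Q` have natural density `δ` -/
def HasDensity (P Q : ℕ → Prop) (δ : ℝ) : Prop :=
  Tendsto (fun X : ℕ => (count (fun m => P m ∧ Q m) X : ℝ) / (count P X : ℝ)) atTop (𝓝 δ)

/-- The 2-part of the strong conjecture of Birch and Swinnerton-Dyer for the twists `E_{-n}` of `X_0(15)`
over the real quadratic fields `ℚ(√d)`: the exact criterion, and the joint density for any finite set of
fields, with the order of the dimension of `Ш[2]`. -/
theorem result :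
    (∀ n d : ℕ, Setting n d → ∀ (K : Type) [Field K] [NumberField K], IsQuad d K →
      Criterion n d K) ∧
    (∀ 𝒟 : Finset ℕ, (∀ d ∈ 𝒟, Disc d ∧ 1 < d) → 𝒟.Nonempty → ∀ δ : ℝ, 0 < δ →
      HasDensity (fun n => Twist n ∧ ∀ d ∈ 𝒟, n.Coprime d)
        (fun n => ∀ d ∈ 𝒟, Proved n d ∧
          |(dim n d : ℝ) - Real.log (Real.log n) / 2| ≤ δ * Real.log (Real.log n))
        (eta ^ (𝒟.card + 1))) ∧
    0.2887 < eta ∧ eta < 0.2889 :=
  Pool.Agent.N856.QB.Res.mainA

end Pool.Agent.Results.MP_e996df_nt.TwoPartTwistsX15Real
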